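import Pool.Agent.V1157.PI.Defs
import Pool.Agent.V1157.RC.Defs

/-!
# Bloch's conjecture for surfaces with `p_g = 0` and special self-correspondences: definitions
-/

open CategoryTheory AlgebraicGeometry

universe u v w

namespace Pool.Agent.V1151.BP

open Pool.Agent.H914 Pool.Agent.H914.VarClass Pool.Agent.H914.VarClass.Obj Pool.Agent.W492.BB
  Pool.Agent.W550.Corr Pool.Agent.TH133 Pool.Agent.Y152.AS Pool.Agent.V1157.RC Pool.Agent.V1157.PI

variable {k : Type u} [Field k] {𝒱 : VarClass k} {C : TheoryData.{u, v, 0} 𝒱 ℚ}
  {K : Type w} [Field K] (H : WeilTheoryData.{u, v, w} C K)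

/-- The two-sided ideal of the self-correspondences of `X` which are sums of correspondences that
factor through surfaces of geometric genus zero. -/
noncomputable def PgIdeal (X : 𝒱.Obj) : Submodule ℚ (C.A (X.prod X)) :=
  Submodule.span ℚ {W | ThroughPgZero H W}

/-- For every surface `X`, the homologically trivial `W` in the ideal `PgIdeal H X` with the
property `P` act as zero on the Albanese kernel of `X`. -/
def PgFor (P : ∀ X : 𝒱.Obj, C.A (X.prod X) → Prop) : Prop :=
  ∀ (X : 𝒱.Obj) (W : C.A (X.prod X)), X.dim = 2 → W ∈ PgIdeal H X → H.cl W = 0 → P X W →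
    ∀ α : C.A X, InAlbKer C α → C.act W α = 0

/-- `PgFor` for the correspondences `W` with `W ∘ W = 0`. -/
def PgSqZero : Prop := PgFor H fun _ W => C.comp W W = 0

/-- `PgFor` for the symmetric correspondences, `ᵗW = W`. -/
def PgSymmetric : Prop := PgFor H fun _ W => tp C W = W

/-- `PgFor` for the antisymmetric correspondences, `ᵗW = -W`. -/
def PgAntisymmetric : Prop := PgFor H fun _ W => tp C W = -W

/-- `g` is an automorphism, with inverse `g'`, of the Chow motive of `X`, congruent to the identity
modulo the ideal `PgIdeal H X`. -/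
structure IsPgAut {X : 𝒱.Obj} (g g' : C.A (X.prod X)) : Prop where
  deg : C.Deg 2 g
  deg' : C.Deg 2 g'
  comp_inv : C.comp g g' = dg C X
  inv_comp : C.comp g' g = dg C X
  mem : g - dg C X ∈ PgIdeal H X

/-- If an automorphism `g` of the Chow motive of a surface `X`, congruent to the identity modulo
`PgIdeal H X`, is homologically equivalent to the identity, then its orbits on the Albanese kernel
of `X` are finite: `g ^ n` fixes `α`, for some `n > 0` which may depend on `α`. -/
def PgAut : Prop :=
  ∀ (X : 𝒱.Obj) (g g' : C.A (X.prod X)), X.dim = 2 → IsPgAut H g g' → H.cl g = H.cl (dg C X) →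
    ∀ α : C.A X, InAlbKer C α → ∃ n : ℕ, 0 < n ∧ (C.act g)^[n] α = α

/-- The self-correspondences `Z`, `Z'` of `X` commute on the Albanese kernel of `X`. -/
def CommuteOn {X : 𝒱.Obj} (Z Z' : C.A (X.prod X)) : Prop :=
  ∀ α : C.A X, InAlbKer C α → C.act Z (C.act Z' α) = C.act Z' (C.act Z α)

/-- For every surface `X`, homologically equivalent idempotents `e`, `f` in `PgIdeal H X` commute
on the Albanese kernel of `X`. -/
def PgIdem : Prop :=
  ∀ (X : 𝒱.Obj) (e f : C.A (X.prod X)), X.dim = 2 → e ∈ PgIdeal H X → f ∈ PgIdeal H X →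
    C.comp e e = e → C.comp f f = f → H.cl e = H.cl f → CommuteOn e f

/-- For every surface `X`, every idempotent `e` in `PgIdeal H X` commutes on the Albanese kernel of
`X` with its conjugates `g e g'` with the automorphisms `g` (with inverse `g'`) of the Chow motive
of `X`, congruent to the identity modulo `PgIdeal H X` and homologically equivalent to the
identity. -/
def PgConj : Prop :=
  ∀ (X : 𝒱.Obj) (e g g' : C.A (X.prod X)), X.dim = 2 → e ∈ PgIdeal H X → C.comp e e = e →
    IsPgAut H g g' → H.cl g = H.cl (dg C X) → CommuteOn e (C.comp g (C.comp e g'))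

/-- For every surface `X`, homologically equivalent involutions `s`, `t` of the Chow motive of `X`,
both congruent to the identity modulo `PgIdeal H X`, commute on the Albanese kernel of `X`. -/
def PgInvol : Prop :=
  ∀ (X : 𝒱.Obj) (s t : C.A (X.prod X)), X.dim = 2 → IsPgAut H s s → IsPgAut H t t →
    H.cl s = H.cl t → CommuteOn s t

end Pool.Agent.V1151.BP
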