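import Pool.Agent.V1151.BP.Defs
import Pool.Agent.V1157.RC.Surf

/-!
# Bloch's conjecture for surfaces with `p_g = 0` and special self-correspondences
-/

open CategoryTheory AlgebraicGeometry

universe u v w

namespace Pool.Agent.V1151.BP

open Pool.Agent.H914 Pool.Agent.H914.VarClass Pool.Agent.H914.VarClass.Obj Pool.Agent.W492.BB
  Pool.Agent.W550.Corr Pool.Agent.TH133 Pool.Agent.Y148.BB Pool.Agent.Y152.AS
  Pool.Agent.V1157.RC Pool.Agent.V1157.PI

set_option linter.unusedSectionVars false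

variable {k : Type u} [Field k] {𝒱 : VarClass k} {C : TheoryData.{u, v, 0} 𝒱 ℚ}
  [hC : IsChowProj C] {K : Type w} [Field K] {H : WeilTheoryData.{u, v, w} C K}
  [hH : IsWeilProj H] {S T V X : 𝒱.Obj}

lemma dg_mem2 (hX : X.dim = 2) : dg C X ∈ C.gr (X.prod X) 2 :=
  gr_congr (by rw [hX]; norm_num) (dg_mem C X)

lemma pgIdeal_mem (hX : X.dim = 2) {W : C.A (X.prod X)} (hW : W ∈ PgIdeal H X) :
    W ∈ C.gr (X.prod X) 2 := by
  refine Submodule.span_le.2 ?_ hW
  rintro _ ⟨S, Γ, Δ, hS, hΓ, hΔ, rfl⟩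
  exact comp_mem2 hS.1 hX hΓ hΔ

/-- Bloch's conjecture for `p_g = 0`: the ideal `PgIdeal` acts as zero. -/
lemma kills_of_bloch (h : BlochPgZero H) (hX : X.dim = 2) {W : C.A (X.prod X)}
    (hW : W ∈ PgIdeal H X) {α : C.A X} (hα : InAlbKer C α) : C.act W α = 0 := by
  induction hW using Submodule.span_induction with
  | mem W hW =>
    obtain ⟨S, Γ, Δ, hS, hΓ, hΔ, rfl⟩ := hW
    rw [C.act_comp, h S hS _ (inAlbKer_iff.2 (act_albKer hX hS.1 hΓ (inAlbKer_iff.1 hα))),
      C.act_map_zero]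
  | zero => exact C.act_zero α
  | add W W' _ _ h1 h2 => rw [C.act_add, h1, h2, add_zero]
  | smul c W _ h1 => rw [act_smul', h1, smul_zero]

section cover

variable {p : V ⟶ S} {r : V ⟶ S} {a : C.A S} {b : C.A S} {m l : ℚ}

lemma sqz_pg (hS : IsPgZero H S) (h : Cover C 2 p r a b m l) {Z : C.A (S.prod S)}
    (hZ : Z ∈ C.gr (S.prod S) 2) : sqz C 2 p r a b m l Z ∈ PgIdeal H V := by
  refine Submodule.subset_span ⟨S, C.graph p, C.comp (shp 2 a b m l Z) (C.cograph r), hS, ?_, ?_,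
    rfl⟩
  · exact gr_congr (by rw [h.dimS]; norm_num) (graph_mem p)
  · have g2 : C.cograph r ∈ C.gr (S.prod V) 2 := gr_congr (by rw [h.dimS]; norm_num) (cograph_mem r)
    have d1 : dg C S - prj C 2 a m ∈ C.gr (S.prod S) 2 :=
      Submodule.sub_mem _ (dg_mem2 h.dimS) (prj_mem h.ha m)
    have d2 : dg C S - prj C 2 b l ∈ C.gr (S.prod S) 2 :=
      Submodule.sub_mem _ (dg_mem2 h.dimS) (prj_mem h.hb l)
    have s1 : shp 2 a b m l Z ∈ C.gr (S.prod S) 2 :=
      comp_mem2 h.dimS h.dimS d1 (comp_mem2 h.dimS h.dimS hZ d2)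
    exact comp_mem2 h.dimS h.dimS s1 g2

lemma idp_pg (hS : IsPgZero H S) (h : Cover C 2 p r a b m l) : idp C p l ∈ PgIdeal H V := by
  refine Submodule.smul_mem _ _ (Submodule.subset_span ⟨S, C.graph p, C.cograph p, hS, ?_, ?_,
    rfl⟩)
  · exact gr_congr (by rw [h.dimS]; norm_num) (graph_mem p)
  · exact gr_congr (by rw [h.dimS]; norm_num) (cograph_mem p)

lemma tp_sqz_pg (hS : IsPgZero H S) (h : Cover C 2 p r a b m l) {Z : C.A (S.prod S)}
    (hZ : Z ∈ C.gr (S.prod S) 2) : tp C (sqz C 2 p r a b m l Z) ∈ PgIdeal H V := by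
  rw [tp_sqz]
  exact sqz_pg hS h.symm (tp_mem C hZ)

end cover

/-- The reduction. -/
lemma bloch_of (hI : ∀ S : 𝒱.Obj, IsPgZero H S → HasIntersection C 2 S S)
    (hk : ∀ (S V : 𝒱.Obj) (p r : V ⟶ S) (a b : C.A S) (m l : ℚ) (Z : C.A (S.prod S)),
      IsPgZero H S → Cover C 2 p r a b m l → C.Deg 2 Z → H.cl Z = 0 →
      ∀ α ∈ albKer C V, C.act (tp C (sqz C 2 p r a b m l Z)) α = 0 →
      C.act (sqz C 2 p r a b m l Z) α = 0) :
    BlochPgZero H := by
  intro S hS α hα
  have hα' := inAlbKer_iff.1 hα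
  have hS2 := hS.1
  obtain ⟨W₀, hW₀, hcl⟩ := hS.2.homDeg
  have hZ2 : dg C S - W₀ ∈ C.gr (S.prod S) 2 :=
    Submodule.sub_mem _ (dg_mem2 hS2) (degenerate_le hS2 hW₀)
  have hZcl : H.cl (dg C S - W₀) = 0 := by rw [map_sub, hcl, sub_self]
  have hZα : C.act (dg C S - W₀) α = α := by
    rw [C.act_sub, act_dg, degenerate_act hS2 hW₀ hα', sub_zero]
  obtain ⟨V, p, r, a, b, m, l, h⟩ := exists_cover (hI S hS) hS2 hS2
  obtain ⟨h1, h2, h3⟩ := reduce H h hZ2 hα'
  rw [hk S V p r a b m l _ hS h hZ2 hZcl _ h1 h3, map_zero, hZα] at h2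
  have h5 : l * m ≠ 0 := mul_ne_zero h.hl h.hm
  rw [← one_smul ℚ α, ← inv_mul_cancel₀ h5, mul_smul, ← h2, smul_zero]

/-- the iterates of a square-zero unipotent correspondence -/
lemma act_iter {W : C.A (V.prod V)} (hW : C.comp W W = 0) (α : C.A V) (n : ℕ) :
    (C.act (dg C V + W))^[n] α = α + (n : ℚ) • C.act W α := by
  have h0 : C.act W (C.act W α) = 0 := by
    rw [← C.act_comp, hW, C.act_zero]
  induction n with
  | zero => simp
  | succ n ih =>
    have h1 : C.act W (α + (n : ℚ) • C.act W α) = C.act W α := by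
      rw [← actB_apply, map_add, map_smul, actB_apply, actB_apply, h0, smul_zero, add_zero]
    rw [Function.iterate_succ_apply', ih, C.act_add, act_dg, h1]
    push_cast
    module

theorem main (H : WeilTheoryData.{u, v, w} C K) [hH : IsWeilProj H]
    (hI : ∀ S : 𝒱.Obj, IsPgZero H S → HasIntersection C 2 S S) :
    List.TFAE [BlochPgZero H,
      PgSqZero H, PgSymmetric H, PgAntisymmetric H,
      PgAut H, PgIdem H, PgConj H, PgInvol H] := by
  tfae_have 1 → 2 := fun h X W hX hW _ _ α hα => kills_of_bloch h hX hW hα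
  tfae_have 1 → 3 := fun h X W hX hW _ _ α hα => kills_of_bloch h hX hW hα
  tfae_have 1 → 4 := fun h X W hX hW _ _ α hα => kills_of_bloch h hX hW hα
  have hone : BlochPgZero H → ∀ {X : 𝒱.Obj} {g g' : C.A (X.prod X)}, X.dim = 2 →
      IsPgAut H g g' → ∀ α, InAlbKer C α → C.act g α = α := by
    intro h X g g' hX hg α hα
    have h1 := kills_of_bloch h hX hg.mem hα
    rwa [C.act_sub, act_dg, sub_eq_zero] at h1
  tfae_have 1 → 5 := by
    intro h X g g' hX hg _ α hα
    exact ⟨1, one_pos, hone h hX hg α hα⟩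
  tfae_have 1 → 6 := by
    intro h X e f hX he hf _ _ _ α hα
    rw [kills_of_bloch h hX he hα, kills_of_bloch h hX hf hα, C.act_map_zero, C.act_map_zero]
  tfae_have 1 → 7 := by
    intro h X e g g' hX he _ hg _ α hα
    rw [kills_of_bloch h hX he hα, C.act_map_zero, C.act_comp, hone h hX hg α hα, C.act_comp,
      kills_of_bloch h hX he hα, C.act_map_zero, C.act_map_zero]
  tfae_have 1 → 8 := by
    intro h X s t hX hs ht _ α hα
    rw [hone h hX hs α hα, hone h hX ht α hα, hone h hX hs α hα]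
  tfae_have 2 → 1 := by
    intro h
    refine bloch_of hI fun S V p r a b m l Z hS hc hZ hZ0 α hα _ => ?_
    exact h V _ hc.dimV (sqz_pg hS hc hZ) (cl_sqz hZ0) (hc.sqz_sq Z) α (inAlbKer_iff.2 hα)
  tfae_have 3 → 1 := by
    intro h
    refine bloch_of hI fun S V p r a b m l Z hS hc hZ hZ0 α hα ht => ?_
    set W := sqz C 2 p r a b m l Z with hWdef
    have hW0 : H.cl W = 0 := cl_sqz hZ0
    have h1 := h V (W + tp C W) hc.dimV
      (Submodule.add_mem _ (sqz_pg hS hc hZ) (tp_sqz_pg hS hc hZ))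
      (by rw [map_add, cl_tp, hW0, tp_zero, add_zero])
      (show tp C (W + tp C W) = W + tp C W by rw [tp_add, tp_tp, add_comm]) α
      (inAlbKer_iff.2 hα)
    rwa [C.act_add, ht, add_zero] at h1
  tfae_have 4 → 1 := by
    intro h
    refine bloch_of hI fun S V p r a b m l Z hS hc hZ hZ0 α hα ht => ?_
    set W := sqz C 2 p r a b m l Z with hWdef
    have hW0 : H.cl W = 0 := cl_sqz hZ0
    have h1 := h V (W - tp C W) hc.dimV
      (Submodule.sub_mem _ (sqz_pg hS hc hZ) (tp_sqz_pg hS hc hZ))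
      (by rw [map_sub, cl_tp, hW0, tp_zero, sub_zero])
      (show tp C (W - tp C W) = -(W - tp C W) by rw [tp_sub, tp_tp, neg_sub]) α
      (inAlbKer_iff.2 hα)
    rwa [C.act_sub, ht, sub_zero] at h1
  have haut : ∀ {S V : 𝒱.Obj} {p r : V ⟶ S} {a b : C.A S} {m l : ℚ} {Z : C.A (S.prod S)},
      IsPgZero H S → Cover C 2 p r a b m l → Z ∈ C.gr (S.prod S) 2 →
      IsPgAut H (dg C V + sqz C 2 p r a b m l Z) (dg C V - sqz C 2 p r a b m l Z) := by
    intro S V p r a b m l Z hS hc hZ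
    obtain ⟨h1, h2⟩ := unit_add (hc.sqz_sq Z)
    refine ⟨Submodule.add_mem _ (dg_mem2 hc.dimV) (hc.sqz_mem hZ),
      Submodule.sub_mem _ (dg_mem2 hc.dimV) (hc.sqz_mem hZ), h1, h2, ?_⟩
    rw [add_sub_cancel_left]
    exact sqz_pg hS hc hZ
  tfae_have 5 → 1 := by
    intro h
    refine bloch_of hI fun S V p r a b m l Z hS hc hZ hZ0 α hα _ => ?_
    have hW0 : H.cl (sqz C 2 p r a b m l Z) = 0 := cl_sqz hZ0
    obtain ⟨n, hn, h3⟩ := h V _ _ hc.dimV (haut hS hc hZ) (by rw [map_add, hW0, add_zero]) α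
      (inAlbKer_iff.2 hα)
    rw [act_iter (hc.sqz_sq Z), add_eq_left] at h3
    exact (smul_eq_zero.1 h3).resolve_left (by exact_mod_cast hn.ne')
  tfae_have 6 → 1 := by
    intro h
    refine bloch_of hI fun S V p r a b m l Z hS hc hZ hZ0 α hα _ => ?_
    have hW0 : H.cl (sqz C 2 p r a b m l Z) = 0 := cl_sqz hZ0
    have h3 := h V (idp C p l) (idp C p l + sqz C 2 p r a b m l Z) hc.dimV
      (idp_pg hS hc) (Submodule.add_mem _ (idp_pg hS hc) (sqz_pg hS hc hZ))
      hc.idp_idem (hc.idem_add Z) (by rw [map_add, hW0, add_zero]) α (inAlbKer_iff.2 hα)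
    rw [← C.act_comp, ← C.act_comp, add_comp, comp_add, hc.idp_idem, hc.sqz_idp, hc.idp_sqz,
      add_zero, C.act_add, left_eq_add] at h3
    exact h3
  tfae_have 7 → 1 := by
    intro h
    refine bloch_of hI fun S V p r a b m l Z hS hc hZ hZ0 α hα _ => ?_
    have hW0 : H.cl (sqz C 2 p r a b m l Z) = 0 := cl_sqz hZ0
    have h3 := h V (idp C p l) _ _ hc.dimV (idp_pg hS hc) hc.idp_idem (haut hS hc hZ)
      (by rw [map_add, hW0, add_zero]) α (inAlbKer_iff.2 hα)
    have h4 : C.comp (dg C V + sqz C 2 p r a b m l Z)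
        (C.comp (idp C p l) (dg C V - sqz C 2 p r a b m l Z)) =
        idp C p l - sqz C 2 p r a b m l Z := by
      rw [comp_sub, comp_dg, hc.idp_sqz, add_comp, dg_comp, comp_sub, hc.sqz_idp, hc.sqz_sq,
        sub_zero, add_zero]
    rw [h4, ← C.act_comp, ← C.act_comp, sub_comp, comp_sub, hc.idp_idem, hc.sqz_idp, hc.idp_sqz,
      sub_zero, C.act_sub, eq_comm, sub_eq_self] at h3
    exact h3
  tfae_have 8 → 1 := by
    intro h
    refine bloch_of hI fun S V p r a b m l Z hS hc hZ hZ0 α hα _ => ?_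
    have hW0 : H.cl (sqz C 2 p r a b m l Z) = 0 := cl_sqz hZ0
    have hinv : ∀ e : C.A (V.prod V), e ∈ PgIdeal H V → C.comp e e = e →
        IsPgAut H (dg C V - (2 : ℚ) • e) (dg C V - (2 : ℚ) • e) := by
      intro e he hee
      have hd : dg C V - (2 : ℚ) • e ∈ C.gr (V.prod V) 2 :=
        Submodule.sub_mem _ (dg_mem2 hc.dimV) (Submodule.smul_mem _ _ (pgIdeal_mem hc.dimV he))
      have hs : C.comp (dg C V - (2 : ℚ) • e) (dg C V - (2 : ℚ) • e) = dg C V := by
        rw [comp_sub, comp_dg, comp_smul', sub_comp, dg_comp, smul_comp', hee, smul_sub, smul_smul]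
        module
      refine ⟨hd, hd, hs, hs, ?_⟩
      rw [sub_sub_cancel_left]
      exact Submodule.neg_mem _ (Submodule.smul_mem _ _ he)
    have h3 := h V _ _ hc.dimV (hinv _ (idp_pg hS hc) hc.idp_idem)
      (hinv _ (Submodule.add_mem _ (idp_pg hS hc) (sqz_pg hS hc hZ)) (hc.idem_add Z))
      (by rw [smul_add, map_sub, map_sub, map_add]
          have : H.cl ((2 : ℚ) • sqz C 2 p r a b m l Z) = 0 := by
            rw [two_smul, map_add, hW0, add_zero]
          rw [this, add_zero]) α (inAlbKer_iff.2 hα)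
    have e1 : C.comp (dg C V - (2 : ℚ) • (idp C p l + sqz C 2 p r a b m l Z))
        (dg C V - (2 : ℚ) • idp C p l) = dg C V - (2 : ℚ) • sqz C 2 p r a b m l Z := by
      rw [comp_sub, comp_dg, comp_smul', sub_comp, dg_comp, smul_comp', add_comp, hc.idp_idem,
        hc.sqz_idp]
      module
    have e2 : C.comp (dg C V - (2 : ℚ) • idp C p l)
        (dg C V - (2 : ℚ) • (idp C p l + sqz C 2 p r a b m l Z)) =
        dg C V + (2 : ℚ) • sqz C 2 p r a b m l Z := by
      rw [sub_comp, dg_comp, smul_comp', comp_sub, comp_dg, comp_smul', comp_add, hc.idp_idem,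
        hc.idp_sqz]
      module
    rw [← C.act_comp, ← C.act_comp, e1, e2, C.act_sub, C.act_add, act_smul'] at h3
    have h5 : (4 : ℚ) • C.act (sqz C 2 p r a b m l Z) α = 0 := by
      have h6 : α - (2 : ℚ) • C.act (sqz C 2 p r a b m l Z) α =
          α + (2 : ℚ) • C.act (sqz C 2 p r a b m l Z) α := by
        rw [act_dg] at h3
        exact h3
      have h7 : (4 : ℚ) • C.act (sqz C 2 p r a b m l Z) α =
          (α + (2 : ℚ) • C.act (sqz C 2 p r a b m l Z) α) -
            (α - (2 : ℚ) • C.act (sqz C 2 p r a b m l Z) α) := by module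
      rw [h7, h6, sub_self]
    exact (smul_eq_zero.1 h5).resolve_left four_ne_zero
  tfae_finish

end Pool.Agent.V1151.BP
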